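import Mathlib

/-!
# MP_c1403d_pr

The leading coefficients `b_{2m,m}` of the Airy moment polynomials have exponential generating
function `x / sinh x`.
-/

namespace Pool.Agent.Results.MP_c1403d_pr.LeadingCoeffs

open PowerSeries

/-- The ring `ℚ[z, b, a, a⁻¹]`; the monomial `z^j b^k a^e` is `single (j, k, e) 1`. -/
abbrev A : Type := AddMonoidAlgebra ℚ (ℕ × ℕ × ℤ)

/-- The monomial `z^j b^k a^e`. -/
noncomputable def mono (j k : ℕ) (e : ℤ) : A := AddMonoidAlgebra.single (j, k, e) 1

/-- The value of the derivation on the monomial `z^j b^k a^e`. -/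
noncomputable def dmono (p : ℕ × ℕ × ℤ) : A :=
  (p.1 : ℚ) • mono (p.1 - 1) p.2.1 p.2.2 + (p.2.1 : ℚ) • mono (p.1 + 1) (p.2.1 - 1) (p.2.2 + 1) +
    (p.2.2 : ℚ) • mono p.1 (p.2.1 + 1) (p.2.2 - 1)

/-- The linear map with the prescribed values on monomials. -/
noncomputable def Dlin : A →ₗ[ℚ] A :=
  (Finsupp.linearCombination ℚ dmono).comp
    (AddMonoidAlgebra.coeffLinearEquiv ℚ : A ≃ₗ[ℚ] ((ℕ × ℕ × ℤ) →₀ ℚ)).toLinearMap

theorem Dlin_single (p : ℕ × ℕ × ℤ) (c : ℚ) :
    Dlin (AddMonoidAlgebra.single p c) = c • dmono p := by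
  simp [Dlin, AddMonoidAlgebra.coeffLinearEquiv, Finsupp.linearCombination_single]

theorem mono_mul (j k : ℕ) (e : ℤ) (j' k' : ℕ) (e' : ℤ) :
    mono j k e * mono j' k' e' = mono (j + j') (k + k') (e + e') := by
  simp [mono, AddMonoidAlgebra.single_mul_single]

theorem dmono_add (p q : ℕ × ℕ × ℤ) :
    dmono (p + q) = mono p.1 p.2.1 p.2.2 * dmono q + mono q.1 q.2.1 q.2.2 * dmono p := by
  obtain ⟨j, k, e⟩ := p
  obtain ⟨j', k', e'⟩ := q
  simp only [dmono, Prod.mk_add_mk, mul_add, mul_smul_comm, mono_mul]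
  have h1 : (((j + j' : ℕ) : ℚ)) • mono (j + j' - 1) (k + k') (e + e') =
      (j' : ℚ) • mono (j + (j' - 1)) (k + k') (e + e') +
      (j : ℚ) • mono (j' + (j - 1)) (k' + k) (e' + e) := by
    rcases j with _ | j <;> rcases j' with _ | j'
    · simp
    · simp
    · simp [add_comm]
    · rw [Nat.cast_add, add_smul, add_comm]
      congr 3 <;> omega
  have h2 : (((k + k' : ℕ) : ℚ)) • mono (j + j' + 1) (k + k' - 1) (e + e' + 1) =
      (k' : ℚ) • mono (j + (j' + 1)) (k + (k' - 1)) (e + (e' + 1)) +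
      (k : ℚ) • mono (j' + (j + 1)) (k' + (k - 1)) (e' + (e + 1)) := by
    rcases k with _ | k <;> rcases k' with _ | k'
    · simp
    · simp [add_assoc]
    · simp
      congr 2 <;> omega
    · rw [Nat.cast_add, add_smul, add_comm]
      congr 3 <;> omega
  have h3 : (((e + e' : ℤ) : ℚ)) • mono (j + j') (k + k' + 1) (e + e' - 1) =
      (e' : ℚ) • mono (j + j') (k + (k' + 1)) (e + (e' - 1)) +
      (e : ℚ) • mono (j' + j) (k' + (k + 1)) (e' + (e - 1)) := by
    rw [Int.cast_add, add_smul, add_comm]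
    congr 3 <;> omega
  rw [h1, h2, h3]
  abel

theorem Dlin_leibniz (f g : A) : Dlin (f * g) = f • Dlin g + g • Dlin f := by
  induction f using AddMonoidAlgebra.induction_linear with
  | zero => simp
  | add f₁ f₂ h₁ h₂ =>
    rw [add_mul, map_add, h₁, h₂, map_add, smul_add, add_smul]
    abel
  | single p c =>
    induction g using AddMonoidAlgebra.induction_linear with
    | zero => simp
    | add g₁ g₂ h₁ h₂ =>
      rw [mul_add, map_add, h₁, h₂, map_add, smul_add, add_smul]
      abel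
    | single q d =>
      rw [AddMonoidAlgebra.single_mul_single, Dlin_single, Dlin_single, Dlin_single, dmono_add]
      have hp : (AddMonoidAlgebra.single p c : A) = c • mono p.1 p.2.1 p.2.2 := by
        simp [mono]
      have hq : (AddMonoidAlgebra.single q d : A) = d • mono q.1 q.2.1 q.2.2 := by
        simp [mono]
      rw [hp, hq, smul_add]
      simp only [smul_eq_mul, smul_mul_assoc, mul_smul_comm, smul_smul]
      rw [mul_comm d c]

/-- The derivation `D` of `ℚ[z, b, a, a⁻¹]` with `Dz = 1`, `Da = b`, `Db = za`. -/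
noncomputable def D : Derivation ℚ A A := Derivation.mk' Dlin Dlin_leibniz

/-- The reduction `R[j,k,ℓ]`: the coefficient of the formal symbol `[j',0,ℓ']` in `R[j,k,ℓ]`
is the value at `(j', ℓ')` (note the order of the arguments: `k` first). -/
noncomputable def R : ℕ → ℕ → ℕ → ((ℕ × ℕ) →₀ ℚ)
  | 0, j, l => Finsupp.single (j, l) 1
  | 1, j, l => ((j : ℚ) / ((l : ℚ) - 1)) • Finsupp.single (j - 1, l - 1) 1
  | (k + 2), j, l => ((j : ℚ) / ((l : ℚ) - 1)) • R (k + 1) (j - 1) (l - 1) +
      (((k : ℚ) + 1) / ((l : ℚ) - 1)) • R k (j + 1) (l - 2)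

/-- The rational numbers `b_{nj}`: the coefficient of `[j,0,2]` in
`∑_{j,k} c^{(n)}_{jk} R[j,k,k+2]`, where `a⁻¹ Dⁿ(a⁻¹) = ∑ c^{(n)}_{jk} z^j b^k a^{-(k+2)}`. -/
noncomputable def bb (n j : ℕ) : ℚ :=
  ((mono 0 0 (-1) * (D^[n] (mono 0 0 (-1)))).coeff.sum
    fun p c => c • R p.2.1 p.1 (p.2.1 + 2)) (j, 2)

/-- the hyperbolic sine series -/
noncomputable def sinhSeries : ℚ⟦X⟧ := C (1 / 2) * (exp ℚ - rescale (-1) (exp ℚ))

theorem D_z : D (mono 1 0 0) = 1 := by
  show Dlin _ = _
  rw [mono, Dlin_single]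
  simp [dmono, mono, AddMonoidAlgebra.one_def]
  rfl

theorem D_a : D (mono 0 0 1) = mono 0 1 0 := by
  show Dlin _ = _
  rw [mono, Dlin_single]
  simp [dmono, mono]

theorem D_b : D (mono 0 1 0) = mono 1 0 0 * mono 0 0 1 := by
  show Dlin _ = _
  rw [mono, Dlin_single, mono_mul]
  simp [dmono, mono]

theorem D_coeff (f : A) (j k : ℕ) (e : ℤ) :
    (D f).coeff (j, k, e) = ((j : ℚ) + 1) * f.coeff (j + 1, k, e) +
      (if j = 0 then 0 else ((k : ℚ) + 1) * f.coeff (j - 1, k + 1, e - 1)) +
      (if k = 0 then 0 else ((e : ℚ) + 1) * f.coeff (j, k - 1, e + 1)) := by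
  show (Dlin f).coeff (j, k, e) = _
  induction f using AddMonoidAlgebra.induction_linear with
  | zero => simp
  | add f g hf hg =>
    rw [map_add, AddMonoidAlgebra.coeff_add, Finsupp.add_apply, hf, hg]
    simp only [AddMonoidAlgebra.coeff_add, Finsupp.add_apply]
    split_ifs <;> ring
  | single p c =>
    obtain ⟨j', k', e'⟩ := p
    rw [Dlin_single]
    simp only [dmono, mono, AddMonoidAlgebra.coeff_smul, AddMonoidAlgebra.coeff_add,
      AddMonoidAlgebra.coeff_single, Finsupp.smul_apply, Finsupp.add_apply,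
      Finsupp.single_apply, Prod.mk.injEq, smul_eq_mul]
    have t1 : (j' : ℚ) * (if j' - 1 = j ∧ k' = k ∧ e' = e then (1 : ℚ) else 0) * c =
        ((j : ℚ) + 1) * (if j' = j + 1 ∧ k' = k ∧ e' = e then c else 0) := by
      rcases j' with _ | j'
      · simp
      · by_cases h : j' = j ∧ k' = k ∧ e' = e
        · rw [if_pos (by omega), if_pos (by omega)]
          rw [h.1]; push_cast; ring
        · rw [if_neg (by omega), if_neg (by omega)]
          ring
    have t2 : (k' : ℚ) * (if j' + 1 = j ∧ k' - 1 = k ∧ e' + 1 = e then (1 : ℚ) else 0) * c =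
        (if j = 0 then 0 else ((k : ℚ) + 1) *
          (if j' = j - 1 ∧ k' = k + 1 ∧ e' = e - 1 then c else 0)) := by
      rcases k' with _ | k'
      · simp
      · rcases j with _ | j
        · simp
        · rw [if_neg (Nat.succ_ne_zero j)]
          by_cases h : j' = j ∧ k' = k ∧ e' + 1 = e
          · rw [if_pos (by omega), if_pos (by omega)]
            rw [h.2.1]; push_cast; ring
          · rw [if_neg (by omega), if_neg (by omega)]
            ring
    have t3 : (e' : ℚ) * (if j' = j ∧ k' + 1 = k ∧ e' - 1 = e then (1 : ℚ) else 0) * c =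
        (if k = 0 then 0 else ((e : ℚ) + 1) *
          (if j' = j ∧ k' = k - 1 ∧ e' = e + 1 then c else 0)) := by
      rcases k with _ | k
      · simp
      · rw [if_neg (Nat.succ_ne_zero k)]
        by_cases h : j' = j ∧ k' = k ∧ e' - 1 = e
        · rw [if_pos (by omega), if_pos (by omega)]
          have : e' = e + 1 := by omega
          rw [this]; push_cast; ring
        · rw [if_neg (by omega), if_neg (by omega)]
          ring
    rw [← t1, ← t2, ← t3]
    ring

/-- the element `Dⁿ(a⁻¹)` -/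
noncomputable def DD (n : ℕ) : A := D^[n] (mono 0 0 (-1))

theorem DD_succ (n : ℕ) : DD (n + 1) = D (DD n) := Function.iterate_succ_apply' _ _ _

theorem DD_zero_coeff (p : ℕ × ℕ × ℤ) :
    (DD 0).coeff p = if p = (0, 0, -1) then 1 else 0 := by
  simp only [DD, Function.iterate_zero, id, mono, AddMonoidAlgebra.coeff_single,
    Finsupp.single_apply, eq_comm]

/-- support of `Dⁿ(a⁻¹)` -/
theorem DD_support (n j k : ℕ) (e : ℤ) (h : (DD n).coeff (j, k, e) ≠ 0) :
    e = -((k : ℤ) + 1) ∧ 2 * j + k ≤ n := by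
  induction n generalizing j k e with
  | zero =>
    rw [DD_zero_coeff] at h
    by_cases hp : (j, k, e) = ((0, 0, -1) : ℕ × ℕ × ℤ)
    · simp only [Prod.mk.injEq] at hp
      omega
    · rw [if_neg hp] at h
      exact absurd rfl h
  | succ n ih =>
    rw [DD_succ, D_coeff] at h
    by_contra hcon
    apply h
    have h1 : (DD n).coeff (j + 1, k, e) = 0 := by
      by_contra h'
      have := ih _ _ _ h'
      omega
    have h2 : (if j = 0 then 0 else ((k : ℚ) + 1) * (DD n).coeff (j - 1, k + 1, e - 1)) = 0 := by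
      split_ifs with hj
      · rfl
      · have : (DD n).coeff (j - 1, k + 1, e - 1) = 0 := by
          by_contra h'
          have := ih _ _ _ h'
          omega
        rw [this, mul_zero]
    have h3 : (if k = 0 then 0 else ((e : ℚ) + 1) * (DD n).coeff (j, k - 1, e + 1)) = 0 := by
      split_ifs with hk
      · rfl
      · have : (DD n).coeff (j, k - 1, e + 1) = 0 := by
          by_contra h'
          have := ih _ _ _ h'
          omega
        rw [this, mul_zero]
    rw [h1, h2, h3]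
    ring

theorem coeff_mono_mul (f : A) (j k : ℕ) (e : ℤ) :
    (mono 0 0 (-1) * f).coeff (j, k, e) = f.coeff (j, k, e + 1) := by
  induction f using AddMonoidAlgebra.induction_linear with
  | zero => simp
  | add f g hf hg =>
    rw [mul_add, AddMonoidAlgebra.coeff_add, Finsupp.add_apply, hf, hg,
      AddMonoidAlgebra.coeff_add, Finsupp.add_apply]
  | single p c =>
    obtain ⟨j', k', e'⟩ := p
    rw [mono, AddMonoidAlgebra.single_mul_single]
    simp only [AddMonoidAlgebra.coeff_single, Finsupp.single_apply, Prod.mk_add_mk,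
      Prod.mk.injEq, zero_add, one_mul]
    congr 1
    simp only [eq_iff_iff]
    omega

/-! ### The top part of the reduction -/

theorem R_low (m : ℕ) : ∀ k j l l', 2 * j + k < 2 * m → (R k j l) (m, l') = 0
  | 0, j, l, l', h => by
    rw [R, Finsupp.single_apply, if_neg]
    simp only [Prod.mk.injEq]
    omega
  | 1, j, l, l', h => by
    rw [R, Finsupp.smul_apply, Finsupp.single_apply, if_neg]
    · simp
    · simp only [Prod.mk.injEq]
      omega
  | k + 2, j, l, l', h => by
    rw [R, Finsupp.add_apply, Finsupp.smul_apply, Finsupp.smul_apply,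
      R_low m k (j + 1) (l - 2) l' (by omega)]
    rcases j with _ | j
    · simp
    · rw [R_low m (k + 1) (j + 1 - 1) (l - 1) l' (by omega)]
      simp

theorem R_top (m : ℕ) : ∀ i, i ≤ m → (R (2 * i) (m - i) (2 * i + 2)) (m, 2) = 1 / (2 * (i : ℚ) + 1)
  | 0, _ => by
    simp [R]
  | i + 1, h => by
    have e : 2 * (i + 1) = 2 * i + 2 := by ring
    rw [e, R, Finsupp.add_apply, Finsupp.smul_apply, Finsupp.smul_apply]
    have h1 : (R (2 * i + 1) (m - (i + 1) - 1) (2 * i + 2 + 2 - 1)) (m, 2) *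
        ((m - (i + 1) : ℕ) : ℚ) = 0 := by
      rcases Nat.eq_zero_or_pos (m - (i + 1)) with h0 | h0
      · rw [h0]; simp
      · rw [R_low m _ _ _ _ (by omega), zero_mul]
    have h2 : m - (i + 1) + 1 = m - i := by omega
    have h3 : 2 * i + 2 + 2 - 2 = 2 * i + 2 := by omega
    rw [h2, h3, R_top m i (by omega)]
    have h4 : (((2 * i + 2 + 2 : ℕ) : ℚ) - 1) = 2 * (i : ℚ) + 3 := by push_cast; ring
    have h5 : (2 * (i : ℚ) + 3) ≠ 0 := by positivity
    have h6 : (2 * (i : ℚ) + 1) ≠ 0 := by positivity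
    rw [h4, smul_eq_mul, smul_eq_mul]
    push_cast
    have h7 : ((m - (i + 1) : ℕ) : ℚ) / (2 * (i : ℚ) + 3) *
        (R (2 * i + 1) (m - (i + 1) - 1) (2 * i + 3)) (m, 2) = 0 := by
      have e3 : 2 * i + 2 + 2 - 1 = 2 * i + 3 := by omega
      rw [e3] at h1
      rw [div_mul_eq_mul_div, mul_comm, h1, zero_div]
    rw [h7, zero_add]
    field_simp
    ring

/-! ### Power series -/

/-- the hyperbolic cosine series -/
noncomputable def coshSeries : ℚ⟦X⟧ := C (1 / 2) * (exp ℚ + rescale (-1) (exp ℚ))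

/-- its inverse -/
noncomputable def kap : ℚ⟦X⟧ := coshSeries⁻¹

theorem coeff_rexp (n : ℕ) : coeff n (rescale (-1) (exp ℚ)) = (-1) ^ n / (n.factorial : ℚ) := by
  simp [coeff_rescale, coeff_exp, div_eq_mul_inv]

theorem d_rexp : d⁄dX ℚ (rescale (-1) (exp ℚ)) = - rescale (-1) (exp ℚ) := by
  ext n
  rw [coeff_derivative, coeff_rexp, map_neg, coeff_rexp, Nat.factorial_succ]
  have : (n.factorial : ℚ) ≠ 0 := by exact_mod_cast n.factorial_ne_zero
  push_cast
  field_simp
  ring

theorem d_sinh : d⁄dX ℚ sinhSeries = coshSeries := by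
  rw [sinhSeries, coshSeries, Derivation.leibniz, derivative_C, map_sub, derivative_exp, d_rexp]
  simp

theorem d_cosh : d⁄dX ℚ coshSeries = sinhSeries := by
  rw [sinhSeries, coshSeries, Derivation.leibniz, derivative_C, map_add, derivative_exp, d_rexp]
  simp [sub_eq_add_neg]

theorem cc_rexp : constantCoeff (rescale (-1) (exp ℚ)) = 1 := by
  rw [← coeff_zero_eq_constantCoeff_apply, coeff_rexp]; simp

theorem cc_cosh : constantCoeff coshSeries = 1 := by
  rw [coshSeries, map_mul, map_add, cc_rexp]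
  simp
  norm_num

theorem cc_sinh : constantCoeff sinhSeries = 0 := by
  rw [sinhSeries, map_mul, map_sub, cc_rexp]
  simp

theorem kap_mul : kap * coshSeries = 1 :=
  PowerSeries.inv_mul_cancel _ (by rw [cc_cosh]; exact one_ne_zero)

theorem d_kap : d⁄dX ℚ kap = - kap ^ 2 * sinhSeries := by
  rw [kap, derivative_inv', d_cosh]

/-- `(-1)^k sinh^k / cosh^{k+1}` -/
noncomputable def g (k : ℕ) : ℚ⟦X⟧ := (-1) ^ k * (sinhSeries ^ k * kap ^ (k + 1))

theorem d_g_zero : d⁄dX ℚ (g 0) = g 1 := by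
  simp only [g, pow_zero, one_mul, zero_add, pow_one]
  rw [d_kap]; ring

theorem d_g_succ (k : ℕ) :
    d⁄dX ℚ (g (k + 1)) = ((k : ℚ⟦X⟧) + 2) * g (k + 2) - ((k : ℚ⟦X⟧) + 1) * g k := by
  have h0 : d⁄dX ℚ ((-1 : ℚ⟦X⟧) ^ (k + 1)) = 0 := by
    rcases neg_one_pow_eq_or ℚ⟦X⟧ (k + 1) with h | h <;> rw [h] <;> simp [map_neg]
  simp only [g]
  rw [Derivation.leibniz, h0, Derivation.leibniz, derivative_pow, derivative_pow, d_sinh, d_kap]
  simp only [smul_eq_mul, mul_zero, add_zero, Nat.add_sub_cancel]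
  have e1 : k + 1 + 1 - 1 = k + 1 := rfl
  push_cast
  linear_combination (-((-1 : ℚ⟦X⟧) ^ k) * (k + 1) * sinhSeries ^ k * kap ^ (k + 1)) * kap_mul

/-- powers of `sinh` vanish to high order -/
theorem coeff_g_of_lt {n k : ℕ} (h : n < k) : coeff n (g k) = 0 := by
  have hs : (X : ℚ⟦X⟧) ∣ sinhSeries := by
    rw [X_dvd_iff]
    exact cc_sinh
  have : (X : ℚ⟦X⟧) ^ k ∣ g k :=
    Dvd.dvd.mul_left (Dvd.dvd.mul_right (pow_dvd_pow_of_dvd hs k) _) _
  exact X_pow_dvd_iff.mp this n h

theorem rescale_const (r t : ℚ) : rescale r (C t : ℚ⟦X⟧) = C t := by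
  ext n
  rw [coeff_rescale, coeff_C]
  split_ifs with h
  · simp [h]
  · simp

theorem rescale_sinh : rescale (-1 : ℚ) sinhSeries = - sinhSeries := by
  rw [sinhSeries, map_mul, map_sub, rescale_rescale, rescale_const]
  simp
  ring

theorem rescale_cosh : rescale (-1 : ℚ) coshSeries = coshSeries := by
  rw [coshSeries, map_mul, map_add, rescale_rescale, rescale_const]
  simp [add_comm]

theorem rescale_kap : rescale (-1 : ℚ) kap = kap := by
  have h1 : rescale (-1 : ℚ) kap * coshSeries = 1 := by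
    conv_lhs => rw [← rescale_cosh]
    rw [← map_mul, kap_mul, map_one]
  calc rescale (-1 : ℚ) kap = rescale (-1 : ℚ) kap * (kap * coshSeries) := by rw [kap_mul, mul_one]
    _ = (rescale (-1 : ℚ) kap * coshSeries) * kap := by ring
    _ = kap := by rw [h1, one_mul]

theorem coeff_g_odd {n : ℕ} (hn : ¬ Even n) (i : ℕ) : coeff n (g (2 * i)) = 0 := by
  have h : rescale (-1 : ℚ) (g (2 * i)) = g (2 * i) := by
    rw [g, map_mul, map_mul, map_pow, map_pow, map_pow, rescale_sinh, rescale_kap, map_neg,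
      map_one]
    congr 2
    rw [neg_pow, pow_mul (-1 : ℚ⟦X⟧) 2 i]
    simp
  have h2 := congrArg (coeff n) h
  rw [coeff_rescale, (Nat.not_even_iff_odd.mp hn).neg_one_pow] at h2
  linarith

/-- the leading coefficients `c^{(n)}_{jk}` with `2j + k = n` -/
theorem DD_top (n : ℕ) : ∀ j k, 2 * j + k = n →
    (DD n).coeff (j, k, -((k : ℤ) + 1)) = (n.factorial : ℚ) * coeff n (g k) := by
  induction n with
  | zero =>
    intro j k h
    have hj : j = 0 := by omega
    have hk : k = 0 := by omega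
    subst hj hk
    rw [DD_zero_coeff]
    simp [g, kap, cc_cosh]
  | succ n ih =>
    intro j k h
    rw [DD_succ, D_coeff]
    have h1 : (DD n).coeff (j + 1, k, -((k : ℤ) + 1)) = 0 := by
      by_contra h'
      have := DD_support _ _ _ _ h'
      omega
    have h2 : (if j = 0 then 0 else ((k : ℚ) + 1) *
        (DD n).coeff (j - 1, k + 1, -((k : ℤ) + 1) - 1)) =
        ((k : ℚ) + 1) * ((n.factorial : ℚ) * coeff n (g (k + 1))) := by
      split_ifs with hj
      · rw [coeff_g_of_lt (by omega)]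
        simp
      · have e : -((k : ℤ) + 1) - 1 = -(((k + 1 : ℕ) : ℤ) + 1) := by push_cast; ring
        rw [e, ih (j - 1) (k + 1) (by omega)]
    have h3 : ((n + 1).factorial : ℚ) * coeff (n + 1) (g k) =
        (n.factorial : ℚ) * coeff n (d⁄dX ℚ (g k)) := by
      rw [coeff_derivative, Nat.factorial_succ]
      push_cast
      ring
    rw [h1, h2, h3]
    rcases k with _ | k
    · rw [d_g_zero]
      simp
    · rw [if_neg (Nat.succ_ne_zero k), d_g_succ]
      have e : -(((k + 1 : ℕ) : ℤ) + 1) + 1 = -((k : ℤ) + 1) := by push_cast; ring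
      have e2 : k + 1 - 1 = k := rfl
      rw [e, e2, ih j k (by omega)]
      have c1 : ((k : ℚ⟦X⟧) + 2) = C ((k : ℚ) + 2) := by
        rw [map_add, map_natCast, map_ofNat]
      have c2 : ((k : ℚ⟦X⟧) + 1) = C ((k : ℚ) + 1) := by
        rw [map_add, map_natCast, map_one]
      rw [c1, c2, map_sub, coeff_C_mul, coeff_C_mul]
      push_cast
      ring

/-- `b_{2m,m}` is a finite sum of leading coefficients -/
theorem bb_eq (m : ℕ) : bb (2 * m) m =
    ∑ i ∈ Finset.range (m + 1), 1 / (2 * (i : ℚ) + 1) *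
      (((2 * m).factorial : ℚ) * coeff (2 * m) (g (2 * i))) := by
  classical
  set f : A := mono 0 0 (-1) * DD (2 * m) with hf
  have hfc : ∀ j k e, f.coeff (j, k, e) = (DD (2 * m)).coeff (j, k, e + 1) := fun j k e =>
    coeff_mono_mul _ j k e
  set G : ℕ × ℕ × ℤ → ℚ := fun p => f.coeff p * (R p.2.1 p.1 (p.2.1 + 2)) (m, 2) with hG
  have h1 : bb (2 * m) m = ∑ p ∈ f.coeff.support, G p := by
    rw [bb, Finsupp.sum, Finsupp.finsetSum_apply]
    rfl
  set E : ℕ → ℕ × ℕ × ℤ := fun i => (m - i, 2 * i, -((2 * i : ℕ) + 1) - 1) with hE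
  set t := f.coeff.support ∪ (Finset.range (m + 1)).image E with ht
  have h2 : ∑ p ∈ f.coeff.support, G p = ∑ p ∈ t, G p := by
    refine Finset.sum_subset Finset.subset_union_left fun p _ hp => ?_
    have : f.coeff p = 0 := by simpa using hp
    simp only [hG, this, zero_mul]
  have h3 : ∑ i ∈ Finset.range (m + 1), 1 / (2 * (i : ℚ) + 1) *
      (((2 * m).factorial : ℚ) * coeff (2 * m) (g (2 * i))) = ∑ p ∈ t, G p := by
    refine Finset.sum_of_injOn E ?_ ?_ ?_ ?_
    · intro i hi j hj hij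
      simp only [hE, Prod.mk.injEq] at hij
      omega
    · intro i hi
      simp only [ht, Finset.coe_union, Finset.coe_image]
      exact Or.inr ⟨i, hi, rfl⟩
    · rintro ⟨j, k, e⟩ _ hp
      simp only [hG]
      by_contra hne
      have hne1 : f.coeff (j, k, e) ≠ 0 := left_ne_zero_of_mul hne
      have hne2 : (R k j (k + 2)) (m, 2) ≠ 0 := right_ne_zero_of_mul hne
      rw [hfc] at hne1
      obtain ⟨q1, q2⟩ := DD_support _ _ _ _ hne1
      have q3 : ¬ (2 * j + k < 2 * m) := fun h => hne2 (R_low m k j _ _ h)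
      apply hp
      refine ⟨k / 2, ?_, ?_⟩
      · simp only [Finset.coe_range, Set.mem_Iio]
        omega
      · simp only [hE, Prod.mk.injEq]
        omega
    · intro i hi
      have hi' : i ≤ m := by
        have := Finset.mem_range.mp hi
        omega
      simp only [hG, hE]
      rw [hfc, R_top m i hi']
      have e1 : (-(((2 * i : ℕ) : ℤ) + 1) - 1 + 1) = -(((2 * i : ℕ) : ℤ) + 1) := by ring
      rw [e1, DD_top (2 * m) (m - i) (2 * i) (by omega)]
      ring
  rw [h1, h2, h3]

/-- the tangent series `sinh / cosh` -/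
noncomputable def tau : ℚ⟦X⟧ := sinhSeries * kap

theorem d_tau : d⁄dX ℚ tau = 1 - tau ^ 2 := by
  rw [tau, Derivation.leibniz, d_sinh, d_kap]
  simp only [smul_eq_mul]
  linear_combination kap_mul

theorem d_artanh (M : ℕ) :
    d⁄dX ℚ (∑ i ∈ Finset.range (M + 1), C (1 / (2 * (i : ℚ) + 1)) * tau ^ (2 * i + 1)) =
      1 - tau ^ (2 * M + 2) := by
  have hterm : ∀ i : ℕ, d⁄dX ℚ (C (1 / (2 * (i : ℚ) + 1)) * tau ^ (2 * i + 1)) =
      tau ^ (2 * i) * (1 - tau ^ 2) := by
    intro i
    rw [Derivation.leibniz, derivative_C, derivative_pow, d_tau]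
    simp only [smul_eq_mul, mul_zero, add_zero, Nat.add_sub_cancel]
    have e : (((2 * i + 1 : ℕ) : ℚ⟦X⟧)) = C (2 * (i : ℚ) + 1) := by
      rw [map_add, map_mul, map_natCast, map_ofNat, map_one]
      push_cast
      ring
    have h : (2 * (i : ℚ) + 1) ≠ 0 := by positivity
    rw [e, ← mul_assoc, ← mul_assoc, ← map_mul, one_div_mul_cancel h, map_one, one_mul]
  rw [map_sum]
  simp_rw [hterm]
  induction M with
  | zero => simp
  | succ M ih =>
    rw [Finset.sum_range_succ, ih]
    ring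

theorem sinh_mul_g (i : ℕ) : sinhSeries * g (2 * i) = tau ^ (2 * i + 1) := by
  rw [g, tau, mul_pow, pow_mul (-1 : ℚ⟦X⟧) 2 i]
  simp
  ring

theorem coeff_main {M n : ℕ} (h : n ≤ 2 * M + 2) :
    coeff n (sinhSeries * ∑ i ∈ Finset.range (M + 1), C (1 / (2 * (i : ℚ) + 1)) * g (2 * i)) =
      coeff n (X : ℚ⟦X⟧) := by
  have e : sinhSeries * ∑ i ∈ Finset.range (M + 1), C (1 / (2 * (i : ℚ) + 1)) * g (2 * i) =
      ∑ i ∈ Finset.range (M + 1), C (1 / (2 * (i : ℚ) + 1)) * tau ^ (2 * i + 1) := by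
    rw [Finset.mul_sum]
    refine Finset.sum_congr rfl fun i _ => ?_
    rw [← sinh_mul_g]
    ring
  rw [e]
  rcases n with _ | n
  · have ht : constantCoeff tau = 0 := by rw [tau, map_mul, cc_sinh, zero_mul]
    rw [coeff_zero_eq_constantCoeff_apply, map_sum]
    simp [ht]
  · have h1 := congrArg (coeff n) (d_artanh M)
    rw [coeff_derivative, map_sub] at h1
    have h2 : coeff n (tau ^ (2 * M + 2)) = 0 := by
      have hs : (X : ℚ⟦X⟧) ∣ tau := by
        rw [X_dvd_iff, tau, map_mul, cc_sinh, zero_mul]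
      exact X_pow_dvd_iff.mp (pow_dvd_pow_of_dvd hs _) n (by omega)
    rw [h2, sub_zero, coeff_one] at h1
    rw [coeff_X]
    have h3 : ((n : ℚ) + 1) ≠ 0 := by positivity
    by_cases hn : n = 0
    · subst hn
      simpa using h1
    · rw [if_neg hn] at h1
      rw [if_neg (by omega)]
      exact (mul_eq_zero.mp h1).resolve_right h3

/-- `∑_m b_{2m,m} x^{2m} / (2m)! = x / sinh x`, in the form
`(∑_m b_{2m,m} x^{2m} / (2m)!) * sinh x = x`. -/
theorem result :
    (D (mono 1 0 0) = 1 ∧ D (mono 0 0 1) = mono 0 1 0 ∧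
      D (mono 0 1 0) = mono 1 0 0 * mono 0 0 1) ∧
    PowerSeries.mk (fun n => if Even n then bb n (n / 2) / (n.factorial : ℚ) else 0) * sinhSeries
      = X := by
  refine ⟨⟨D_z, D_a, D_b⟩, ?_⟩
  ext n
  have hcoef : ∀ r ≤ n, coeff r
      (PowerSeries.mk (fun n => if Even n then bb n (n / 2) / (n.factorial : ℚ) else 0)) =
      coeff r (∑ i ∈ Finset.range (n + 1), C (1 / (2 * (i : ℚ) + 1)) * g (2 * i)) := by
    intro r hr
    rw [coeff_mk, map_sum]
    simp_rw [coeff_C_mul]
    by_cases hev : Even r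
    · rw [if_pos hev]
      obtain ⟨m, hm⟩ := hev
      have hm' : r = 2 * m := by omega
      subst hm'
      rw [Nat.mul_div_cancel_left m (by norm_num), bb_eq, Finset.sum_div]
      have hf : (((2 * m).factorial : ℚ)) ≠ 0 := by exact_mod_cast (2 * m).factorial_ne_zero
      have hsub : Finset.range (m + 1) ⊆ Finset.range (n + 1) := by
        apply Finset.range_subset_range.mpr
        omega
      rw [← Finset.sum_subset hsub]
      · refine Finset.sum_congr rfl fun i _ => ?_
        field_simp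
      · intro i _ hi
        rw [coeff_g_of_lt, mul_zero]
        have : ¬ i < m + 1 := fun h => hi (Finset.mem_range.mpr h)
        omega
    · rw [if_neg hev, Finset.sum_eq_zero]
      intro i _
      rw [coeff_g_odd hev, mul_zero]
  have h2 : coeff n (PowerSeries.mk
        (fun n => if Even n then bb n (n / 2) / (n.factorial : ℚ) else 0) * sinhSeries) =
      coeff n ((∑ i ∈ Finset.range (n + 1), C (1 / (2 * (i : ℚ) + 1)) * g (2 * i)) *
        sinhSeries) := by
    rw [coeff_mul, coeff_mul]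
    refine Finset.sum_congr rfl fun p hp => ?_
    have := Finset.HasAntidiagonal.mem_antidiagonal.mp hp
    rw [hcoef p.1 (by omega)]
  rw [h2, mul_comm]
  exact coeff_main (by omega)

end Pool.Agent.Results.MP_c1403d_pr.LeadingCoeffs
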